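import Pool.Agent.Helper77.MK.D42Ok
import Pool.Agent.Helper77.MK.GenRed

namespace Pool.Agent.Results.MP_8bce70_co.HeapsUpTo42

open Pool.Agent.Helper77.MK

/-- The positions all of whose heaps have a size between 1 and 42. -/
def A42 : Set (Multiset ℕ) := {G | ∀ h ∈ G, 1 ≤ h ∧ h ≤ 42}

/-- The numbers `a`, `b` are equal, or both are at least `m` and they are congruent modulo `p`. -/
def Same (m p a b : ℕ) : Prop := a = b ∨ (m ≤ a ∧ m ≤ b ∧ a % p = b % p)

/-- preperiods of the multiplicities of the heap sizes 0, 1, ..., 42 -/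
def pre : List ℕ :=
  [0, 0, 0, 0, 3, 0, 3, 0, 0, 0, 1, 3, 1, 3, 3, 0, 3, 1, 3, 1, 3, 2, 1, 2, 2, 3, 1, 2, 2, 1, 3, 3,
    3, 4, 2, 2, 2, 2, 3, 2, 3, 3, 2]

/-- periods of the multiplicities of the heap sizes 0, 1, ..., 42 -/
def per : List ℕ :=
  [1, 1, 2, 2, 2, 1, 2, 2, 2, 1, 2, 2, 2, 2, 2, 1, 2, 2, 2, 2, 2, 1, 2, 2, 2, 1, 2, 2, 2, 1, 2, 2,
    2, 2, 2, 1, 2, 2, 2, 1, 2, 2, 2]

theorem okG_of {G : Multiset ℕ} (h : G ∈ A42) : Gen.okG D42.dat G := h

/-- iterated action on the class 0 -/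
def itR (g : ℕ) (n : ℕ) : ℕ := (List.replicate n g).foldr (Gen.actR D42.dat) 0

def itS (g : ℕ) (n : ℕ) : ℕ := (List.replicate n g).foldr (Gen.actS D42.dat) 0

theorem rc_rep (h n : ℕ) : Gen.rc D42.dat (n • ({h} : Multiset ℕ)) = itR (Gen.gi D42.dat h) n := by
  induction n with
  | zero => rw [zero_nsmul]; exact Gen.rc_zero
  | succ n ih =>
    rw [succ_nsmul', Multiset.singleton_add, Gen.rc_cons' D42.ok, ih]
    rfl

theorem sc_rep (h n : ℕ) : Gen.sc D42.dat (n • ({h} : Multiset ℕ)) = itS (Gen.gu D42.dat h) n := by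
  induction n with
  | zero => rw [zero_nsmul]; exact Gen.sc_zero
  | succ n ih =>
    rw [succ_nsmul', Multiset.singleton_add, Gen.sc_cons D42.ok, ih]
    rfl

theorem chk (h : ℕ) (h1 : 1 ≤ h) (h2 : h ≤ 42) :
    itR (Gen.gi D42.dat h) (pre.getD h 0 + per.getD h 1) = itR (Gen.gi D42.dat h) (pre.getD h 0) ∧
    itS (Gen.gu D42.dat h) (pre.getD h 0 + per.getD h 1) = itS (Gen.gu D42.dat h) (pre.getD h 0) := by
  interval_cases h
  all_goals exact ⟨by decide +kernel, by decide +kernel⟩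

theorem count_rep (x h n : ℕ) : (n • ({h} : Multiset ℕ)).count x = if x = h then n else 0 := by
  rw [Multiset.count_nsmul, Multiset.count_singleton]
  split_ifs <;> simp

theorem rel_rep (h : ℕ) (h1 : 1 ≤ h) (h2 : h ≤ 42) :
    Gen.Rel D42.dat ((pre.getD h 0 + per.getD h 1) • ({h} : Multiset ℕ))
      (pre.getD h 0 • {h}) := by
  refine ⟨?_, ?_, ?_, ?_⟩
  · rw [rc_rep, rc_rep]; exact (chk h h1 h2).1
  · rw [sc_rep, sc_rep]; exact (chk h h1 h2).2
  · rw [count_rep, count_rep]
    by_cases h30 : 30 = h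
    · subst h30; decide +kernel
    · rw [if_neg h30, if_neg h30]
  · rw [count_rep, count_rep]
    by_cases h34 : 34 = h
    · subst h34; decide +kernel
    · rw [if_neg h34, if_neg h34]

theorem part1 (G : Multiset ℕ) (hG : G ∈ A42) (G' : Multiset ℕ) (hG' : G' ∈ A42)
    (h : ∀ x, 1 ≤ x → x ≤ 42 → Same (pre.getD x 0) (per.getD x 1) (G.count x) (G'.count x))
    (he : min 5 (G.count 34 - G.count 30) = min 5 (G'.count 34 - G'.count 30)) :
    MisereP G ↔ MisereP G' := by
  refine Gen.misere_congr D42.ok (okG_of hG) (okG_of hG') ?_ he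
  exact Gen.Phi_same D42.ok (fun x => pre.getD x 0) (fun x => per.getD x 1) rel_rep
    (okG_of hG) (okG_of hG') h

theorem per_pos (x : ℕ) : 0 < per.getD x 1 := by
  by_cases h : x < 43
  · interval_cases x <;> decide
  · rw [List.getD_eq_default]
    · norm_num
    · show 43 ≤ x
      omega

theorem pre_le (x : ℕ) : pre.getD x 0 + per.getD x 1 ≤ 6 := by
  by_cases h : x < 43
  · interval_cases x <;> decide
  · rw [List.getD_eq_default, List.getD_eq_default]
    · norm_num
    · show 43 ≤ x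
      omega
    · show 43 ≤ x
      omega

theorem part2 (G : Multiset ℕ) (hG : G ∈ A42) : ∃ G' ∈ A42, (∀ h, h ≠ 34 → G'.count h ≤ 5) ∧
    G'.count 34 ≤ 10 ∧ (MisereP G ↔ MisereP G') := by
  obtain ⟨i', j', hi, hj, h1, h2, h3⟩ := Gen.pair_red (G.count 30) (G.count 34)
  let f : ℕ → ℕ := fun x => if x = 30 then i' else if x = 34 then j'
    else Gen.low (pre.getD x 0) (per.getD x 1) (G.count x)
  let v : Fin 42 → ℕ := fun k => f (k.val + 1)
  have hA : Gen.psi 42 v ∈ A42 := (Gen.psi_range _).mpr ⟨v, rfl⟩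
  have hc : ∀ x, 1 ≤ x → x ≤ 42 → (Gen.psi 42 v).count x = f x := by
    intro x hx1 hx2
    have h := Gen.psi_count v ⟨x - 1, by omega⟩
    have e : x - 1 + 1 = x := by omega
    simp only [e] at h
    rw [h]
    show f (x - 1 + 1) = f x
    rw [e]
  have h30 : f 30 = i' := rfl
  have h34 : f 34 = j' := rfl
  refine ⟨Gen.psi 42 v, hA, fun x hx => ?_, ?_, ?_⟩
  · by_cases hx1 : 1 ≤ x ∧ x ≤ 42
    · rw [hc x hx1.1 hx1.2]
      by_cases hx30 : x = 30
      · subst hx30; rw [h30]; omega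
      · show (if x = 30 then i' else if x = 34 then j'
          else Gen.low (pre.getD x 0) (per.getD x 1) (G.count x)) ≤ 5
        rw [if_neg hx30, if_neg hx]
        have := Gen.low_lt (pre.getD x 0) (per.getD x 1) (G.count x) (per_pos x)
        have := pre_le x
        omega
    · rw [Multiset.count_eq_zero.mpr (fun hm => hx1 (hA x hm))]
      omega
  · rw [hc 34 (by norm_num) (by norm_num), h34]; exact hj
  · refine part1 G hG _ hA (fun x hx1 hx2 => ?_) ?_
    · rw [hc x hx1 hx2]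
      by_cases hx30 : x = 30
      · subst hx30; rw [h30]; exact h1
      · by_cases hx34 : x = 34
        · subst hx34; rw [h34]; exact h2
        · show Same (pre.getD x 0) (per.getD x 1) (G.count x) (if x = 30 then i' else
            if x = 34 then j' else Gen.low (pre.getD x 0) (per.getD x 1) (G.count x))
          rw [if_neg hx30, if_neg hx34]
          exact Gen.low_same _ _ _
    · rw [hc 34 (by norm_num) (by norm_num), hc 30 (by norm_num) (by norm_num), h30, h34]
      exact h3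

theorem part3 (a b : ℕ) (hab : (a, b) ∈ [(1, 0), (5, 0), (9, 0), (15, 0), (3, 2), (7, 2), (8, 2),
    (13, 4), (18, 4), (11, 6), (20, 6), (26, 12)]) : Equiv A42 (heap a) (heap b) := by
  have key : ∀ a b : ℕ, a ≤ 42 → b ≤ 42 → a ≠ 30 → b ≠ 30 → a ≠ 34 → b ≠ 34 →
      Gen.gi D42.dat a = Gen.gi D42.dat b → Gen.gu D42.dat a = Gen.gu D42.dat b →
      Equiv A42 (heap a) (heap b) := by
    intro a b ha hb ha30 hb30 ha34 hb34 h1 h2 X hX
    have hok : ∀ k, k ≤ 42 → Gen.okG D42.dat (heap k + X) := by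
      intro k hk x hx
      rcases Multiset.mem_add.mp hx with hx | hx
      · by_cases h0 : k = 0
        · rw [h0, Gen.heap_zero] at hx; simp at hx
        · rw [Gen.heap_pos h0, Multiset.mem_singleton] at hx
          subst hx
          exact ⟨by omega, hk⟩
      · exact hX x hx
    refine Gen.misere_congr D42.ok (hok a ha) (hok b hb) ⟨?_, ?_, ?_, ?_⟩ ?_
    · rw [Gen.rc_heap D42.ok, Gen.rc_heap D42.ok, h1]
    · rw [Gen.sc_heap D42.ok, Gen.sc_heap D42.ok, h2]
    · rw [Gen.count_heap 30 _ (by norm_num), Gen.count_heap 30 _ (by norm_num), if_neg ha30,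
        if_neg hb30]
    · rw [Gen.count_heap 34 _ (by norm_num), Gen.count_heap 34 _ (by norm_num), if_neg ha34,
        if_neg hb34]
    · rw [Gen.count_heap 30 _ (by norm_num), Gen.count_heap 30 _ (by norm_num), if_neg ha30,
        if_neg hb30, Gen.count_heap 34 _ (by norm_num), Gen.count_heap 34 _ (by norm_num),
        if_neg ha34, if_neg hb34]
  simp only [List.mem_cons, Prod.mk.injEq, List.not_mem_nil, or_false] at hab
  rcases hab with ⟨rfl, rfl⟩ | ⟨rfl, rfl⟩ | ⟨rfl, rfl⟩ | ⟨rfl, rfl⟩ | ⟨rfl, rfl⟩ | ⟨rfl, rfl⟩ |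
    ⟨rfl, rfl⟩ | ⟨rfl, rfl⟩ | ⟨rfl, rfl⟩ | ⟨rfl, rfl⟩ | ⟨rfl, rfl⟩ | ⟨rfl, rfl⟩
  all_goals
    exact key _ _ (by norm_num) (by norm_num) (by norm_num) (by norm_num) (by norm_num)
      (by norm_num) (by decide) (by decide)

theorem part4 : ∃ (F : Type) (_ : AddCommMonoid F) (Φ : Multiset ℕ →+ F) (T : Set (F × ℕ)),
    Finite F ∧ Nat.card F ≤ 5098560 ∧ ∀ G ∈ A42,
      (MisereP G ↔ (Φ G, min 5 (G.count 34 - G.count 30)) ∈ T) := by
  refine ⟨Gen.Fin' D42.ok, inferInstance, Gen.Phi D42.ok,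
    {q | ∃ G : Multiset ℕ, G ∈ A42 ∧ MisereP G ∧ Gen.Phi D42.ok G = q.1 ∧
      min 5 (G.count 34 - G.count 30) = q.2}, Gen.finite_Fin D42.ok, ?_, ?_⟩
  · have h := Gen.card_Fin D42.ok
    have e : D42.dat.N * (D42.dat.NS * ((D42.dat.A1 + 1) * (D42.dat.B1 + 1))) = 5098560 := by
      decide +kernel
    rw [e] at h
    exact h
  · intro G hG
    constructor
    · intro hP
      exact ⟨G, hG, hP, rfl, rfl⟩
    · rintro ⟨G', hG', hP, h1, h2⟩
      refine (Gen.misere_congr D42.ok (okG_of hG) (okG_of hG') ?_ ?_).mpr hP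
      · rw [← Gen.Phi_eq D42.ok]; exact h1.symm
      · exact h2.symm

/-- **Misere Dawson's Kayles 0.07 with heaps of size at most 42.**
(1) The misere outcome of a position with all heaps at most 42 depends only on the reduced
multiplicities (the multiplicity of the heap size `h` matters only up to the preperiod `pre h ≤ 4`,
and from there on only modulo `per h ≤ 2`) and on `min 5 (max 0 (#34 - #30))`.
(2) So each such position has the outcome of a position with at most 5 heaps of every size (at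
most 10 of size 34).
(3) Some heaps are equivalent modulo `A42` to smaller ones.
(4) The outcome is determined by the image of the position in a finite commutative monoid and by
`min 5 (max 0 (#34 - #30))`.
(5) The set of the P-positions with heaps at most 42 is semilinear. -/
theorem result :
    (∀ G ∈ A42, ∀ G' ∈ A42,
      (∀ h, 1 ≤ h → h ≤ 42 → Same (pre.getD h 0) (per.getD h 1) (G.count h) (G'.count h)) →
      min 5 (G.count 34 - G.count 30) = min 5 (G'.count 34 - G'.count 30) →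
      (MisereP G ↔ MisereP G')) ∧
    (∀ G ∈ A42, ∃ G' ∈ A42, (∀ h, h ≠ 34 → G'.count h ≤ 5) ∧ G'.count 34 ≤ 10 ∧
      (MisereP G ↔ MisereP G')) ∧
    (∀ a b : ℕ, (a, b) ∈ [(1, 0), (5, 0), (9, 0), (15, 0), (3, 2), (7, 2), (8, 2), (13, 4),
      (18, 4), (11, 6), (20, 6), (26, 12)] → Equiv A42 (heap a) (heap b)) ∧
    (∃ (F : Type) (_ : AddCommMonoid F) (Φ : Multiset ℕ →+ F) (T : Set (F × ℕ)),
      Finite F ∧ Nat.card F ≤ 5098560 ∧ ∀ G ∈ A42,
        (MisereP G ↔ (Φ G, min 5 (G.count 34 - G.count 30)) ∈ T)) ∧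
    IsSemilinearSet {G : Multiset ℕ | G ∈ A42 ∧ MisereP G} :=
  ⟨fun G hG G' hG' h he => part1 G hG G' hG' h he, part2, part3, part4,
    Gen.semilinear D42.ok⟩

end Pool.Agent.Results.MP_8bce70_co.HeapsUpTo42
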