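import Pool.Agent.Helper77.MK.C34Inf

namespace Pool.Agent.Results.MP_8bce70_co.InfiniteQuotient

open Pool.Agent.Helper77.MK

theorem fam_zero (i j : ℕ) : C34.fam 0 i j =
    19 ::ₘ 25 ::ₘ (Multiset.replicate i 30 + Multiset.replicate j 34) := by
  unfold C34.fam; simp

theorem drop_two {A : Set (Multiset ℕ)} (hA : ClosedSet A) (n : ℕ) (R : Multiset ℕ) :
    ∀ k, ((n + 2 * k) ::ₘ R) ∈ A → 1 ≤ n → (n ::ₘ R) ∈ A := by
  intro k
  induction k with
  | zero => intro h _; simpa using h
  | succ k ih =>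
    intro h hn
    refine ih (hA.2.2 _ h _ ⟨R, n + 2 * k, 0, ?_, ?_⟩) hn
    · rfl
    · rw [C34.heap_zero, C34.heap_pos (show n + 2 * k ≠ 0 by omega), add_zero,
        Multiset.singleton_add]

theorem mem_replicate {A : Set (Multiset ℕ)} (hA : ClosedSet A) {G : Multiset ℕ} (h0 : 0 ∈ A)
    (hG : G ∈ A) : ∀ n : ℕ, n • G ∈ A := by
  intro n
  induction n with
  | zero => simpa using h0
  | succ n ih => rw [succ_nsmul]; exact hA.2.1 _ ih _ hG

theorem rep_eq (n h : ℕ) : n • ({h} : Multiset ℕ) = Multiset.replicate n h := by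
  rw [Multiset.nsmul_singleton]

/-- the elements of a closed set containing the heap 34 which are needed -/
theorem members {A : Set (Multiset ℕ)} (hA : ClosedSet A) (h34 : ({34} : Multiset ℕ) ∈ A) :
    (∀ m : ℕ, Multiset.replicate m 30 ∈ A) ∧
      ∀ j : ℕ, C34.fam 2 0 j ∈ A := by
  have mv : ∀ a b : ℕ, a ≠ 0 → b ≠ 0 → a + b + 2 = 34 → (a ::ₘ b ::ₘ 0) ∈ A := by
    intro a b ha hb hab
    refine hA.2.2 _ h34 _ ⟨0, a, b, ?_, ?_⟩
    · rw [hab]; rfl
    · rw [C34.heap_pos ha, C34.heap_pos hb, add_zero, Multiset.singleton_add]; rfl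
  have h30 : ({30} : Multiset ℕ) ∈ A := by
    have h1 := mv 2 30 (by norm_num) (by norm_num) (by norm_num)
    refine hA.2.2 _ h1 _ ⟨30 ::ₘ 0, 0, 0, rfl, ?_⟩
    rw [C34.heap_zero, zero_add, zero_add]; rfl
  have h2 : ({2} : Multiset ℕ) ∈ A := drop_two hA 2 0 14 h30 (by norm_num)
  have h0 : (0 : Multiset ℕ) ∈ A := by
    refine hA.2.2 _ h2 _ ⟨0, 0, 0, rfl, ?_⟩
    rw [C34.heap_zero]; rfl
  have h19 : (1 ::ₘ 19 ::ₘ 0) ∈ A :=
    drop_two hA 1 (19 ::ₘ 0) 6 (mv 13 19 (by norm_num) (by norm_num) (by norm_num)) (by norm_num)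
  have h25 : (1 ::ₘ 25 ::ₘ 0) ∈ A :=
    drop_two hA 1 (25 ::ₘ 0) 3 (mv 7 25 (by norm_num) (by norm_num) (by norm_num)) (by norm_num)
  refine ⟨fun m => ?_, fun j => ?_⟩
  · rw [← rep_eq]; exact mem_replicate hA h0 h30 m
  · have h := hA.2.1 _ (hA.2.1 _ h19 _ h25) _ (mem_replicate hA h0 h34 j)
    rw [rep_eq] at h
    have e : C34.fam 2 0 j = (1 ::ₘ 19 ::ₘ 0) + (1 ::ₘ 25 ::ₘ 0) + Multiset.replicate j 34 := by
      unfold C34.fam
      rw [show Multiset.replicate 2 1 = (1 ::ₘ 1 ::ₘ 0 : Multiset ℕ) from rfl,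
        show Multiset.replicate 0 30 = (0 : Multiset ℕ) from rfl, zero_add]
      simp only [Multiset.cons_add, Multiset.zero_add]
      rw [Multiset.cons_swap 1 19]
    rw [e]; exact h

theorem fam_split (i j : ℕ) : Multiset.replicate i 30 + C34.fam 2 0 j = C34.fam 2 i j := by
  unfold C34.fam
  rw [show Multiset.replicate 0 30 = (0 : Multiset ℕ) from rfl, zero_add, ← add_assoc,
    add_comm (Multiset.replicate i 30), add_assoc]
  congr 1
  rw [Multiset.add_cons, Multiset.add_cons]

theorem inequiv {A : Set (Multiset ℕ)} (hA : ClosedSet A) (h34 : ({34} : Multiset ℕ) ∈ A)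
    (m n : ℕ) (h : Equiv A (Multiset.replicate m 30) (Multiset.replicate n 30)) : m = n := by
  have key : ∀ a b : ℕ, a < b → Equiv A (Multiset.replicate a 30) (Multiset.replicate b 30) →
      False := by
    intro a b hab h
    by_cases ha : a = 0
    · have h1 := h _ ((members hA h34).2 1)
      rw [fam_split, fam_split, C34.fam_iff _ _ _ le_rfl, C34.fam_iff _ _ _ le_rfl] at h1
      have := h1.mp (Or.inl ha)
      omega
    · have h1 := h _ ((members hA h34).2 (a + 2))
      rw [fam_split, fam_split, C34.fam_iff _ _ _ (by omega), C34.fam_iff _ _ _ (by omega)] at h1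
      have := h1.mp (Or.inr le_rfl)
      omega
  rcases lt_trichotomy m n with h1 | h1 | h1
  · exact (key m n h1 h).elim
  · exact h1
  · exact (key n m h1 (fun X hX => (h X hX).symm)).elim

theorem infinite_quotient {A : Set (Multiset ℕ)} (hA : ClosedSet A)
    (h34 : ({34} : Multiset ℕ) ∈ A) : Infinite (MisereQuotient A) := by
  refine Infinite.of_injective
    (fun m : ℕ => (Quotient.mk (quotSetoid A) ⟨Multiset.replicate m 30, (members hA h34).1 m⟩ :
      MisereQuotient A)) ?_
  intro m n hmn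
  exact inequiv hA h34 m n (Quotient.exact hmn)

theorem closed_le (n : ℕ) : ClosedSet {G : Multiset ℕ | ∀ h ∈ G, 1 ≤ h ∧ h ≤ n} := by
  refine ⟨fun G hG h0 => ?_, fun G hG H hH x hx => ?_, ?_⟩
  · have := hG 0 h0; omega
  · rcases Multiset.mem_add.mp hx with h | h
    · exact hG x h
    · exact hH x h
  · rintro G hG G' ⟨R, a, b, rfl, rfl⟩ x hx
    have h1 := hG (a + b + 2) (Multiset.mem_cons_self _ _)
    have key : ∀ c, x ∈ heap c → c ≤ a + b → 1 ≤ x ∧ x ≤ n := by
      intro c hc hle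
      by_cases h0 : c = 0
      · rw [h0, C34.heap_zero] at hc; simp at hc
      · rw [C34.heap_pos h0, Multiset.mem_singleton] at hc
        subst hc; omega
    rw [Multiset.mem_add, Multiset.mem_add] at hx
    rcases hx with (hx | hx) | hx
    · exact key a hx (by omega)
    · exact key b hx (by omega)
    · exact hG x (Multiset.mem_cons_of_mem hx)

theorem closed_all : ClosedSet {G : Multiset ℕ | (0 : ℕ) ∉ G} := by
  refine ⟨fun G hG => hG, fun G hG H hH h0 => ?_, ?_⟩
  · rcases Multiset.mem_add.mp h0 with h | h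
    · exact hG h
    · exact hH h
  · rintro G hG G' ⟨R, a, b, rfl, rfl⟩ h0
    have key : ∀ c, (0 : ℕ) ∉ heap c := by
      intro c hc
      by_cases h1 : c = 0
      · rw [h1, C34.heap_zero] at hc; simp at hc
      · rw [C34.heap_pos h1, Multiset.mem_singleton] at hc
        exact h1 hc.symm
    rw [Multiset.mem_add, Multiset.mem_add] at h0
    rcases h0 with (h0 | h0) | h0
    · exact key a h0
    · exact key b h0
    · exact hG (Multiset.mem_cons_of_mem h0)

/-- **The misere quotient of Dawson's Kayles 0.07 becomes infinite at heap 34.**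
(1) For `j ≥ 1` the position `19 + 25 + i·30 + j·34` is a misere P-position exactly when `i = 0` or
`j ≥ i + 2`.
(2) In every set of positions closed under sums and options which contains the heap 34, the
multiples `m·30` of the heap 30 are pairwise inequivalent, so the misere quotient is infinite.
(3) In particular the quotient of the positions with all heaps at most `n` is infinite for every
`n ≥ 34`, and so is the quotient of the whole game. -/
theorem result :
    (∀ i j : ℕ, 1 ≤ j →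
      (MisereP (19 ::ₘ 25 ::ₘ (Multiset.replicate i 30 + Multiset.replicate j 34)) ↔
        (i = 0 ∨ i + 2 ≤ j))) ∧
    (∀ A : Set (Multiset ℕ), ClosedSet A → ({34} : Multiset ℕ) ∈ A →
      (∀ m : ℕ, Multiset.replicate m 30 ∈ A) ∧
      (∀ m n : ℕ, Equiv A (Multiset.replicate m 30) (Multiset.replicate n 30) → m = n) ∧
      Infinite (MisereQuotient A)) ∧
    (∀ n : ℕ, 34 ≤ n →
      ClosedSet {G : Multiset ℕ | ∀ h ∈ G, 1 ≤ h ∧ h ≤ n} ∧
      Infinite (MisereQuotient {G : Multiset ℕ | ∀ h ∈ G, 1 ≤ h ∧ h ≤ n})) ∧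
    (ClosedSet {G : Multiset ℕ | (0 : ℕ) ∉ G} ∧
      Infinite (MisereQuotient {G : Multiset ℕ | (0 : ℕ) ∉ G})) := by
  refine ⟨fun i j hj => ?_, fun A hA h34 => ⟨(members hA h34).1, inequiv hA h34,
    infinite_quotient hA h34⟩, fun n hn => ⟨closed_le n, infinite_quotient (closed_le n) ?_⟩,
    closed_all, infinite_quotient closed_all ?_⟩
  · rw [← fam_zero]; exact C34.fam_iff 0 i j hj
  · intro h hh
    rw [Multiset.mem_singleton] at hh
    omega
  · simp

end Pool.Agent.Results.MP_8bce70_co.InfiniteQuotient
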